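import Mathlib
import Pool.Agent.H57.Nstar

set_option autoImplicit false

open Cardinal Pool.Agent.H57.Nstar

namespace Pool.Agent.Results.MP_bcfe2b_lc.BigFamily

/-- There is an almost disjoint family of non-compact regular open subsets of `ℕ*`
of cardinality `2 ^ ℵ₁`. -/
theorem result : ∃ A : Set (Set NStar), ADFamily A ∧ Cardinal.mk A = 2 ^ (ℵ₁ : Cardinal.{0}) :=
  main

end Pool.Agent.Results.MP_bcfe2b_lc.BigFamily
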