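import Mathlib
import Pool.Agent.H57.Nstar2

set_option autoImplicit false

open Cardinal Pool.Agent.H57.Nstar

namespace Pool.Agent.Results.MP_bcfe2b_lc.ChainBound

/-- If there is no strictly increasing (modulo finite) chain of subsets of `ℕ` of order type
`k⁺`, then every almost disjoint family on `ℕ*` has at most `2 ^ k` members. -/
theorem result (k : Cardinal.{0}) (hk : ℵ₀ ≤ k)
    (H : ¬ ∃ f : (Order.succ k).ord.ToType → Set ℕ,
      ∀ a b, a < b → (f a \ f b).Finite ∧ (f b \ f a).Infinite)
    (A : Set (Set NStar)) (hA : ADFamily A) : Cardinal.mk A ≤ 2 ^ k :=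
  upper k hk H A hA

end Pool.Agent.Results.MP_bcfe2b_lc.ChainBound
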